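import Pool.Agent.W831.ECC.Gad3
import Pool.Agent.H160R2.HF.Hoffman

/-!
# Beurling families on finite sets

A finite form of the statement: if every sign pattern is interpolated by a function dominated by
`L`, then there is a linear (Beurling) interpolation dominated by `L`.  The proof is by duality and
Seymour's theorem on sums of circuits (rounding to even sets).
-/

set_option autoImplicit false

namespace Pool.Agent.X205.Beurling

open Finset
open Pool.Agent.W831.ECC.Gad (CutC Lv even_round)
open Pool.Agent.H126R2.CDC (IsFl)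
open Pool.Agent.H160R2.HF (net eulerian)

/-- An even set of edges has an orientation which is a circulation. -/
theorem even_orient {V E : Type} [Fintype V] [DecidableEq V] [Fintype E] [DecidableEq E]
    (u : E × Bool → V) (D : Finset E) (hD : IsFl u (fun e => if e ∈ D then 1 else 0)) :
    ∃ ψ : E → ℤ, (∀ e, (e ∈ D → ψ e = 1 ∨ ψ e = -1) ∧ (e ∉ D → ψ e = 0)) ∧
      ∀ g : V → ℝ, ∑ e, (ψ e : ℝ) * (g (u (e, false)) - g (u (e, true))) = 0 := by
  classical
  obtain ⟨ψ, h1, h2⟩ := eulerian (fun e => u (e, false)) (fun e => u (e, true)) D (by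
    intro w
    have h := hD w
    rw [Fintype.sum_prod_type] at h
    simp only [Fintype.sum_bool] at h
    rw [Finset.sum_add_distrib] at h
    have e1 : ∀ b : Bool, ∑ e : E, (if u (e, b) = w then (if e ∈ D then (1 : ZMod 2) else 0) else 0)
        = ((D.filter fun e => u (e, b) = w).card : ZMod 2) := by
      intro b
      rw [Finset.card_filter, Nat.cast_sum]
      rw [← Finset.sum_filter_add_sum_filter_not (s := (univ : Finset E)) (p := fun e => e ∈ D)]
      rw [Finset.sum_eq_zero (s := univ.filter fun e => ¬ e ∈ D)]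
      · rw [add_zero]
        have : (univ.filter fun e => e ∈ D) = D := by ext; simp
        rw [this]
        refine Finset.sum_congr rfl fun e he => ?_
        by_cases h3 : u (e, b) = w <;> simp [h3, he]
      · intro e he
        have he' : e ∉ D := by simpa using he
        by_cases h3 : u (e, b) = w <;> simp [h3, he']
    rw [e1, e1, ← Nat.cast_add] at h
    rw [add_comm]
    exact (ZMod.natCast_eq_zero_iff_even).1 h)
  refine ⟨ψ, h1, fun g => ?_⟩
  have h3 : ∀ v, ((net (fun e => u (e, false)) (fun e => u (e, true)) ψ v : ℤ) : ℝ) = 0 := by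
    intro v; rw [h2 v]; simp
  have h4 : ∑ v, g v * ((net (fun e => u (e, false)) (fun e => u (e, true)) ψ v : ℤ) : ℝ) = 0 := by
    simp [h3]
  rw [← h4]
  unfold net
  push_cast
  have e2 : ∀ b : Bool, ∑ e, (ψ e : ℝ) * g (u (e, b)) =
      ∑ v, g v * ∑ e with u (e, b) = v, (ψ e : ℝ) := by
    intro b
    simp_rw [Finset.mul_sum, Finset.sum_filter]
    rw [Finset.sum_comm]
    refine Finset.sum_congr rfl fun e _ => ?_
    simp [mul_comm]
  simp_rw [mul_sub]
  rw [Finset.sum_sub_distrib, Finset.sum_sub_distrib, e2, e2]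

/-- Weighted rounding: nonnegative weights with the cut condition and negative cost yield an even
set with negative cost. -/
theorem exists_even_neg {V E : Type} [Fintype V] [DecidableEq V] [Fintype E] [DecidableEq E]
    (u : E × Bool → V) (x : E → ℝ) (h0 : ∀ e, 0 ≤ x e) (hc : CutC u x) (l : E → ℝ)
    (hl : ∑ e, l e * x e < 0) :
    ∃ D : Finset E, IsFl u (fun e => if e ∈ D then 1 else 0) ∧ ∑ e ∈ D, l e < 0 := by
  classical
  set T : ℝ := 2 * (1 + ∑ e, x e) with hT
  have hs : 0 ≤ ∑ e, x e := Finset.sum_nonneg (fun e _ => h0 e)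
  have hT0 : 0 < T := by linarith
  obtain ⟨D, hD1, hD2⟩ := even_round u (fun e => T⁻¹ * x e)
    (fun e => mul_nonneg (inv_nonneg.2 hT0.le) (h0 e))
    (fun e => by
      have h2 : x e ≤ ∑ e, x e := Finset.single_le_sum (fun e _ => h0 e) (Finset.mem_univ e)
      rw [inv_mul_le_iff₀ hT0]
      linarith)
    (by
      intro S e he
      have h2 := hc S e he
      have h3 : ∑ f : E, (if f ≠ e ∧ Lv u S f then T⁻¹ * x f else 0) =
          T⁻¹ * ∑ f : E, (if f ≠ e ∧ Lv u S f then x f else 0) := by
        rw [Finset.mul_sum]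
        apply Finset.sum_congr rfl
        intro f _
        split_ifs <;> simp
      rw [h3]
      exact mul_le_mul_of_nonneg_left h2 (inv_nonneg.2 hT0.le)) l
  refine ⟨D, hD1, lt_of_le_of_lt hD2 ?_⟩
  have : ∑ e, l e * (T⁻¹ * x e) = T⁻¹ * ∑ e, l e * x e := by
    rw [Finset.mul_sum]
    refine Finset.sum_congr rfl fun e _ => ?_
    ring
  rw [this]
  exact mul_neg_of_pos_of_neg (inv_pos.2 hT0) hl

/-- **Finite theorem, dual form.**  Let `w x y i` be weights on ordered pairs of points for each
commodity `i`, and `μ i j` real numbers, such that for every `i` the divergence of `w · · i` is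
cancelled by the pairs with multiplicities `μ i j`.  If every sign pattern is interpolated by a
function dominated by `L`, then `∑ i, μ i i * dd i ≤ ∑ x y, L x y * W x y` for every `W` dominating
all `|w x y i|`. -/
theorem dual_ineq {V J : Type} [Fintype V] [DecidableEq V] [Fintype J] [DecidableEq J]
    (a b : J → V) (dd : J → ℝ) (hdd : ∀ j, 0 ≤ dd j) (L : V → V → ℝ)
    (H : ∀ ε : J → ℝ, (∀ j, ε j = 1 ∨ ε j = -1) → ∃ g : V → ℝ,
      (∀ x y, |g x - g y| ≤ L x y) ∧ ∀ j, g (a j) - g (b j) = ε j * dd j)
    (w : V → V → J → ℝ) (μ : J → J → ℝ) (W : V → V → ℝ) (hW : ∀ x y i, |w x y i| ≤ W x y)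
    (hW0 : ∀ x y, 0 ≤ W x y)
    (hflow : ∀ (i : J) (f : V → ℝ), ∑ x, ∑ y, w x y i * (f x - f y) +
      ∑ j, μ i j * (f (a j) - f (b j)) = 0) :
    ∑ i, μ i i * dd i ≤ ∑ x, ∑ y, L x y * W x y := by
  classical
  by_contra hcon
  push Not at hcon
  -- the multigraph
  let E := J ⊕ ((V × V) × Bool)
  let u : E × Bool → V := fun h => match h with
    | (Sum.inl j, false) => a j
    | (Sum.inl j, true) => b j
    | (Sum.inr ((x, _), _), false) => x
    | (Sum.inr ((_, y), _), true) => y
  -- the largest usage of the pair `j`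
  have hex : ∀ j, ∃ i, ∀ i', |μ i' j| ≤ |μ i j| := by
    intro j
    obtain ⟨i, -, hi⟩ := Finset.exists_max_image (univ : Finset J) (fun i => |μ i j|) ⟨j, mem_univ _⟩
    exact ⟨i, fun i' => hi i' (mem_univ _)⟩
  choose m hm using hex
  let x : E → ℝ := Sum.elim (fun j => |μ (m j) j|) (fun p => W p.1.1 p.1.2 / 2)
  have hx0 : ∀ e, 0 ≤ x e := by
    rintro (j | ⟨⟨p, q⟩, c⟩)
    · exact abs_nonneg _
    · exact div_nonneg (hW0 _ _) (by norm_num)
  have hterm : ∀ (S : Finset V) (e f : E), 0 ≤ (if f ≠ e ∧ Lv u S f then x f else 0) := by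
    intro S e f
    split_ifs
    · exact hx0 f
    · exact le_rfl
  have hcut : CutC u x := by
    intro S e he
    rcases e with j | ⟨⟨p, q⟩, c⟩
    · -- a pair edge
      have hf := hflow (m j) (fun v => if v ∈ S then 1 else 0)
      have hsplit : ∑ f : E, (if f ≠ Sum.inl j ∧ Lv u S f then x f else 0) =
          ∑ l : J, (if l ≠ j ∧ ¬ (a l ∈ S ↔ b l ∈ S) then |μ (m l) l| else 0) +
          ∑ p : V, ∑ q : V, (if ¬ (p ∈ S ↔ q ∈ S) then W p q else 0) := by
        rw [Fintype.sum_sum_type]
        congr 1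
        · refine Finset.sum_congr rfl fun l _ => ?_
          by_cases hlj : l = j
          · subst hlj; simp
          · have h7 : (Sum.inl l : E) ≠ Sum.inl j := fun h => hlj (Sum.inl_injective h)
            have h8 : Lv u S (Sum.inl l) ↔ ¬ (a l ∈ S ↔ b l ∈ S) := Iff.rfl
            simp only [h7, hlj, h8, ne_eq, not_false_eq_true, true_and]
            rfl
        · rw [Fintype.sum_prod_type, Fintype.sum_prod_type]
          refine Finset.sum_congr rfl fun p _ => Finset.sum_congr rfl fun q _ => ?_
          have h7 : ∀ c, (Sum.inr ((p, q), c) : E) ≠ Sum.inl j := by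
            intro c h
            cases h
          have h8 : ∀ c, Lv u S (Sum.inr ((p, q), c)) ↔ ¬ (p ∈ S ↔ q ∈ S) := fun c => Iff.rfl
          have h9 : ∀ c, x (Sum.inr ((p, q), c)) = W p q / 2 := fun c => rfl
          simp only [h7, h8, h9, ne_eq, not_false_eq_true, true_and, Fintype.sum_bool]
          split_ifs <;> ring
      rw [hsplit]
      show |μ (m j) j| ≤ _
      have hj : ¬ (a j ∈ S ↔ b j ∈ S) := he
      have h1 : |μ (m j) j| = |μ (m j) j * ((if a j ∈ S then (1 : ℝ) else 0) -
          (if b j ∈ S then 1 else 0))| := by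
        rw [abs_mul]
        by_cases h5 : a j ∈ S <;> by_cases h6 : b j ∈ S <;> simp_all
      have h2 : μ (m j) j * ((if a j ∈ S then (1 : ℝ) else 0) - (if b j ∈ S then 1 else 0)) =
          -(∑ x, ∑ y, w x y (m j) * ((if x ∈ S then (1 : ℝ) else 0) - (if y ∈ S then 1 else 0)) +
          ∑ l ∈ univ.erase j, μ (m j) l * ((if a l ∈ S then (1 : ℝ) else 0) -
            (if b l ∈ S then 1 else 0))) := by
        rw [← Finset.add_sum_erase univ _ (mem_univ j)] at hf
        linarith
      rw [h1, h2, abs_neg]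
      refine (abs_add_le _ _).trans ?_
      rw [add_comm]
      refine add_le_add ?_ ?_
      · refine (Finset.abs_sum_le_sum_abs _ _).trans ?_
        rw [← Finset.add_sum_erase univ _ (mem_univ j)]
        simp only [ne_eq, not_true_eq_false, false_and, if_false, zero_add]
        refine Finset.sum_le_sum fun l hl => ?_
        have hlj : l ≠ j := Finset.ne_of_mem_erase hl
        have := hm l (m j)
        rw [abs_mul]
        by_cases h5 : a l ∈ S <;> by_cases h6 : b l ∈ S <;> simp [h5, h6, hlj, this]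
      · refine (Finset.abs_sum_le_sum_abs _ _).trans (Finset.sum_le_sum fun p _ => ?_)
        refine (Finset.abs_sum_le_sum_abs _ _).trans (Finset.sum_le_sum fun q _ => ?_)
        have := hW p q (m j)
        rw [abs_mul]
        by_cases h5 : p ∈ S <;> by_cases h6 : q ∈ S <;> simp [h5, h6, this]
    · -- a connecting edge: compare with its parallel copy
      have h1 : x (Sum.inr ((p, q), c)) ≤
          (if (Sum.inr ((p, q), !c) : E) ≠ Sum.inr ((p, q), c) ∧ Lv u S (Sum.inr ((p, q), !c))
            then x (Sum.inr ((p, q), !c)) else 0) := by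
        have hh : (Sum.inr ((p, q), !c) : E) ≠ Sum.inr ((p, q), c) ∧
            Lv u S (Sum.inr ((p, q), !c)) := by
          refine ⟨fun h => ?_, he⟩
          have h2 := Sum.inr_injective h
          simp at h2
        rw [if_pos hh]
        exact le_rfl
      exact h1.trans (Finset.single_le_sum (f := fun f : E =>
        if f ≠ Sum.inr ((p, q), c) ∧ Lv u S f then x f else 0) (fun f _ => hterm S _ f)
        (mem_univ _))
  -- the cost
  let l : E → ℝ := Sum.elim (fun j => - dd j) (fun p => L p.1.1 p.1.2)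
  have hcost : ∑ e, l e * x e < 0 := by
    rw [Fintype.sum_sum_type, Fintype.sum_prod_type, Fintype.sum_prod_type]
    simp only [l, x, Sum.elim_inl, Sum.elim_inr, Fintype.sum_bool]
    have h1 : ∑ p : V, ∑ q : V, (L p q * (W p q / 2) + L p q * (W p q / 2)) =
        ∑ x, ∑ y, L x y * W x y := by
      refine Finset.sum_congr rfl fun p _ => Finset.sum_congr rfl fun q _ => ?_
      ring
    rw [h1]
    have h2 : ∑ j, μ j j * dd j ≤ ∑ j, dd j * |μ (m j) j| := by
      refine Finset.sum_le_sum fun j _ => ?_
      rw [mul_comm]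
      exact mul_le_mul_of_nonneg_left ((le_abs_self _).trans (hm j j)) (hdd j)
    have h3 : ∑ j, -dd j * |μ (m j) j| = -∑ j, dd j * |μ (m j) j| := by
      rw [← Finset.sum_neg_distrib]
      refine Finset.sum_congr rfl fun j _ => ?_
      ring
    rw [h3]
    linarith
  obtain ⟨D, hD1, hD2⟩ := exists_even_neg u x hx0 hcut l hcost
  obtain ⟨ψ, hψ1, hψ2⟩ := even_orient u D hD1
  -- orient the pairs in `D`
  obtain ⟨g, hg1, hg2⟩ := H (fun j => if Sum.inl j ∈ D then (ψ (Sum.inl j) : ℝ) else 1) (by
    intro j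
    by_cases hj : Sum.inl j ∈ D
    · rcases (hψ1 (Sum.inl j)).1 hj with h | h <;> simp [hj, h]
    · simp [hj])
  have h1 := hψ2 g
  have h3 : 0 ≤ ∑ e ∈ D, l e := by
    have h4 : ∀ e : E, -(if e ∈ D then l e else 0) ≤
        (ψ e : ℝ) * (g (u (e, false)) - g (u (e, true))) := by
      intro e
      by_cases he : e ∈ D
      · rw [if_pos he]
        rcases e with j | ⟨⟨p, q⟩, c⟩
        · have h5 : g (u (Sum.inl j, false)) - g (u (Sum.inl j, true)) = _ := hg2 j
          rw [h5, if_pos he]
          rcases (hψ1 (Sum.inl j)).1 he with h | h <;> simp [h, l]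
        · have h5 : |g (u (Sum.inr ((p, q), c), false)) - g (u (Sum.inr ((p, q), c), true))| ≤
              L p q := hg1 p q
          show -(L p q) ≤ _
          have h6 := abs_le.1 h5
          rcases (hψ1 (Sum.inr ((p, q), c))).1 he with h | h
          · rw [h]; push_cast; linarith
          · rw [h]; push_cast; linarith
      · rw [if_neg he, (hψ1 e).2 he]
        simp
    have h5 := Finset.sum_le_sum (s := (univ : Finset E)) fun e _ => h4 e
    rw [h1, Finset.sum_neg_distrib, Finset.sum_ite_mem, Finset.univ_inter] at h5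
    linarith
  linarith

/-- **Finite theorem.**  If every sign pattern is interpolated by a function dominated by `L`, then
there is a Beurling family dominated by `L`. -/
theorem finite_beurling {V J : Type} [Fintype V] [DecidableEq V] [Fintype J] [DecidableEq J]
    (a b : J → V) (dd : J → ℝ) (hdd : ∀ j, 0 ≤ dd j) (L : V → V → ℝ) (hL : ∀ x y, 0 ≤ L x y)
    (H : ∀ ε : J → ℝ, (∀ j, ε j = 1 ∨ ε j = -1) → ∃ g : V → ℝ,
      (∀ x y, |g x - g y| ≤ L x y) ∧ ∀ j, g (a j) - g (b j) = ε j * dd j) :
    ∃ f : J → V → ℝ, (∀ x y, ∑ j, |f j x - f j y| ≤ L x y) ∧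
      ∀ i j, f i (a j) - f i (b j) = if i = j then dd j else 0 := by
  classical
  rcases isEmpty_or_nonempty J with hJ | hJ
  · exact ⟨fun j => (hJ.false j).elim, fun x y => by simpa using hL x y,
      fun i => (hJ.false i).elim⟩
  by_contra hcon
  push Not at hcon
  let K := (V × V × J) ⊕ (J × J)
  let Φ : (J → V → ℝ) →ₗ[ℝ] (K → ℝ) :=
    { toFun := fun f => Sum.elim (fun p => f p.2.2 p.1 - f p.2.2 p.2.1)
        (fun p => f p.1 (a p.2) - f p.1 (b p.2))
      map_add' := by
        intro f g
        ext (p | p) <;> simp <;> ring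
      map_smul' := by
        intro c f
        ext (p | p) <;> simp <;> ring }
  let C : Set (K → ℝ) := {c | (∀ x y, ∑ j, |c (Sum.inl (x, y, j))| ≤ L x y) ∧
    ∀ i j, c (Sum.inr (i, j)) = if i = j then dd j else 0}
  have hCconv : Convex ℝ C := by
    rintro c ⟨h1, h2⟩ c' ⟨h1', h2'⟩ s t hs ht hst
    refine ⟨fun x y => ?_, fun i j => ?_⟩
    · calc ∑ j, |(s • c + t • c') (Sum.inl (x, y, j))|
          ≤ ∑ j, (s * |c (Sum.inl (x, y, j))| + t * |c' (Sum.inl (x, y, j))|) := by
            refine Finset.sum_le_sum fun j _ => ?_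
            simp only [Pi.add_apply, Pi.smul_apply, smul_eq_mul]
            refine (abs_add_le _ _).trans ?_
            rw [abs_mul, abs_mul, abs_of_nonneg hs, abs_of_nonneg ht]
        _ = s * ∑ j, |c (Sum.inl (x, y, j))| + t * ∑ j, |c' (Sum.inl (x, y, j))| := by
            rw [Finset.sum_add_distrib, Finset.mul_sum, Finset.mul_sum]
        _ ≤ s * L x y + t * L x y := by
            have := h1 x y
            have := h1' x y
            gcongr
        _ = L x y := by rw [← add_mul, hst, one_mul]
    · simp only [Pi.add_apply, Pi.smul_apply, smul_eq_mul, h2, h2']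
      rw [← add_mul, hst, one_mul]
  have hCclosed : IsClosed C := by
    have e : C = (⋂ x, ⋂ y, {c : K → ℝ | ∑ j, |c (Sum.inl (x, y, j))| ≤ L x y}) ∩
        ⋂ i, ⋂ j, {c : K → ℝ | c (Sum.inr (i, j)) = if i = j then dd j else 0} := by
      ext c
      simp [C]
    rw [e]
    refine IsClosed.inter ?_ ?_
    · refine isClosed_iInter fun x => isClosed_iInter fun y => isClosed_le ?_ continuous_const
      fun_prop
    · refine isClosed_iInter fun i => isClosed_iInter fun j => isClosed_eq ?_ continuous_const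
      fun_prop
  have hCcomp : IsCompact C := by
    let bd : K → ℝ := Sum.elim (fun p => L p.1 p.2.1) (fun p => dd p.2)
    have hbox : IsCompact (Set.pi Set.univ (fun k : K => Set.Icc (-bd k) (bd k))) :=
      isCompact_univ_pi fun k => isCompact_Icc
    refine hbox.of_isClosed_subset hCclosed ?_
    rintro c ⟨h1, h2⟩ k -
    rw [Set.mem_Icc, ← abs_le]
    rcases k with ⟨x, y, j⟩ | ⟨i, j⟩
    · exact (Finset.single_le_sum (f := fun j => |c (Sum.inl (x, y, j))|)
        (fun _ _ => abs_nonneg _) (mem_univ j)).trans (h1 x y)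
    · rw [h2]
      show _ ≤ dd j
      split_ifs
      · rw [abs_of_nonneg (hdd j)]
      · simpa using hdd j
  have hdisj : Disjoint C (LinearMap.range Φ : Set (K → ℝ)) := by
    rw [Set.disjoint_left]
    rintro c ⟨h1, h2⟩ ⟨f, rfl⟩
    obtain ⟨i, j, hij⟩ := hcon f (fun x y => h1 x y)
    exact hij (h2 i j)
  obtain ⟨F, s, t, hF1, hst, hF2⟩ := geometric_hahn_banach_compact_closed hCconv hCcomp
    (LinearMap.range Φ).convex (Submodule.closed_of_finiteDimensional _) hdisj
  have ht0 : t < 0 := by
    have := hF2 0 (Submodule.zero_mem _)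
    simpa using this
  have hFR : ∀ f, F (Φ f) = 0 := by
    intro f
    by_contra hne
    have h1 := hF2 (((t - 1) / F (Φ f)) • Φ f) ((LinearMap.range Φ).smul_mem _ ⟨f, rfl⟩)
    rw [map_smul, smul_eq_mul, div_mul_cancel₀ _ hne] at h1
    linarith
  let e : K → ℝ := fun k => F (fun k' => if k = k' then 1 else 0)
  have hrep : ∀ y : K → ℝ, F y = ∑ k, e k * y k := by
    intro y
    have := LinearMap.pi_apply_eq_sum_univ (F : (K → ℝ) →ₗ[ℝ] ℝ) y
    simp only [smul_eq_mul] at this
    rw [show F y = (F : (K → ℝ) →ₗ[ℝ] ℝ) y from rfl, this]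
    exact Finset.sum_congr rfl fun k _ => mul_comm _ _
  let w : V → V → J → ℝ := fun x y j => e (Sum.inl (x, y, j))
  let μ : J → J → ℝ := fun i j => e (Sum.inr (i, j))
  have hFy : ∀ y : K → ℝ, F y = ∑ x, ∑ x', ∑ j, w x x' j * y (Sum.inl (x, x', j)) +
      ∑ i, ∑ j, μ i j * y (Sum.inr (i, j)) := by
    intro y
    rw [hrep y, Fintype.sum_sum_type, Fintype.sum_prod_type, Fintype.sum_prod_type]
    congr 1
    refine Finset.sum_congr rfl fun x _ => ?_
    rw [Fintype.sum_prod_type]
  have hmax : ∀ x y : V, ∃ j, ∀ j', |w x y j'| ≤ |w x y j| := by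
    intro x y
    obtain ⟨j, -, hj⟩ := Finset.exists_max_image (univ : Finset J) (fun j => |w x y j|)
      Finset.univ_nonempty
    exact ⟨j, fun j' => hj j' (mem_univ _)⟩
  choose m hm using hmax
  let W : V → V → ℝ := fun x y => |w x y (m x y)|
  -- the flow identity
  have hflow : ∀ (i : J) (f : V → ℝ), ∑ x, ∑ y, (-w x y i) * (f x - f y) +
      ∑ j, (-μ i j) * (f (a j) - f (b j)) = 0 := by
    intro i f
    have h1 := hFR (fun i' => if i' = i then f else 0)
    rw [hFy] at h1
    have h2 : ∀ x x' : V, ∑ j, w x x' j * (Φ (fun i' => if i' = i then f else 0))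
        (Sum.inl (x, x', j)) = w x x' i * (f x - f x') := by
      intro x x'
      rw [Finset.sum_eq_single i]
      · simp [Φ]
      · intro j _ hj
        simp [Φ, hj]
      · simp
    have h3 : ∑ i', ∑ j, μ i' j * (Φ (fun i' => if i' = i then f else 0)) (Sum.inr (i', j)) =
        ∑ j, μ i j * (f (a j) - f (b j)) := by
      rw [Finset.sum_eq_single i]
      · simp [Φ]
      · intro j _ hj
        simp [Φ, hj]
      · simp
    simp_rw [h2] at h1
    rw [h3] at h1
    simp only [neg_mul, Finset.sum_neg_distrib]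
    linarith
  have hdual := dual_ineq a b dd hdd L H (fun x y j => -w x y j) (fun i j => -μ i j) W
    (fun x y i => by rw [abs_neg]; exact hm x y i) (fun x y => abs_nonneg _) hflow
  -- the worst point of `C`
  let h : K → ℝ := Sum.elim
    (fun p => if p.2.2 = m p.1 p.2.1 then
      L p.1 p.2.1 * SignType.sign (w p.1 p.2.1 (m p.1 p.2.1)) else 0)
    (fun p => if p.1 = p.2 then dd p.2 else 0)
  have hsgn : ∀ r : ℝ, |((SignType.sign r : SignType) : ℝ)| ≤ 1 := by
    intro r
    rcases lt_trichotomy r 0 with h | h | h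
    · simp [sign_neg h]
    · simp [h]
    · simp [sign_pos h]
  have hhC : h ∈ C := by
    refine ⟨fun x y => ?_, fun i j => rfl⟩
    simp only [h, Sum.elim_inl]
    rw [Finset.sum_eq_single (m x y)]
    · rw [if_pos rfl, abs_mul, abs_of_nonneg (hL x y)]
      exact mul_le_of_le_one_right (hL x y) (hsgn _)
    · intro j _ hj
      rw [if_neg hj, abs_zero]
    · simp
  have h1 := hF1 h hhC
  rw [hFy] at h1
  have h2 : ∀ x y : V, ∑ j, w x y j * h (Sum.inl (x, y, j)) = L x y * W x y := by
    intro x y
    simp only [h, Sum.elim_inl]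
    rw [Finset.sum_eq_single (m x y)]
    · rw [if_pos rfl]
      have : w x y (m x y) * (L x y * SignType.sign (w x y (m x y))) =
          L x y * (w x y (m x y) * SignType.sign (w x y (m x y))) := by ring
      rw [this, self_mul_sign]
    · intro j _ hj
      rw [if_neg hj, mul_zero]
    · simp
  have h3 : ∑ i, ∑ j, μ i j * h (Sum.inr (i, j)) = ∑ i, μ i i * dd i := by
    refine Finset.sum_congr rfl fun i _ => ?_
    simp only [h, Sum.elim_inr]
    rw [Finset.sum_eq_single i]
    · simp
    · intro j _ hj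
      rw [if_neg (Ne.symm hj), mul_zero]
    · simp
  simp_rw [h2] at h1
  rw [h3] at h1
  simp only [neg_mul, Finset.sum_neg_distrib] at hdual
  linarith

end Pool.Agent.X205.Beurling
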